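import Pool.Agent.H561.E3.K11

/-!
# Cunningham chains with variable steps in boxes of log-power size: a prime followed by products of two primes

A Cunningham chain of the second kind is `p`, `2 p - 1`, `2 (2 p - 1) - 1`, …. Let the steps vary: for integers `d_1, …, d_k` let
`c_0 = p`, `c_i = 2 c_(i-1) + d_i` (`1 ≤ i ≤ k`; all `d_i = -1` in the problem).

For every `k ≥ 1` and `ε > 0` there is `θ > 0` such that for all `A`, `B` there are `u`, `G` with the following property for all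
large `x`. Let `1 ≤ P ≤ x ^ θ`, let `S_1, …, S_k` be arbitrary sets of primes in `((log x) ^ u, P]` with
`∑_{s ∈ S_i} 1 / s ≥ (log x) ^ (-B)`, let `(N₁, N₂] ⊆ [0, x]` be an interval of length at least `x / (log x) ^ B` and let
`[b_1, b_1 + H) × … × [b_k, b_k + H)` be ANY box of side `H ≥ P (log x) ^ G` (so `H` may be as small as a power of `log x`) with
values of the chains in `[1, x]`. For all `d` in the box without a local obstruction (no prime divides `c_0 c_1 ⋯ c_k` for all `p`),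
except at most `H ^ k / (log x) ^ A`, the number of the primes `p ∈ (N₁, N₂]` for which every `c_i` is the product of a prime from
`S_i` and a prime (`1 ≤ i ≤ k`) is

`∏_q (1 - 1 / q) ^ (-(k + 1)) (1 - ω(q) / q) * ∏_i (∑_{s ∈ S_i} 1 / s) * (N₂ - N₁) / (log x) ^ (k + 1)`

up to a relative error of at most `ε` (`ω(q)` is the number of the `n` modulo `q` with `c_0 ⋯ c_k ≡ 0`).

Proof: `Pool.Agent.H561.E2`, `Pool.Agent.H561.E3` (circle method in short intervals).
-/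

set_option autoImplicit false

namespace Pool.Agent.Results.MP_9f2731_nt.ChainsInLogBoxes

open Finset Filter

/-- `m` is the product of an element of `S` and a prime -/
def ProductOfTwo (S : Finset ℕ) (m : ℤ) : Prop := ∃ s ∈ S, ∃ q : ℕ, q.Prime ∧ m = s * q

/-- the chain `c_0 = n`, `c_i = 2 c_(i-1) + d_i` for `1 ≤ i ≤ k` (continued with `d_i = -1` for `i > k`) -/
def chain {k : ℕ} (d : Fin k → ℤ) (n : ℤ) : ℕ → ℤ
  | 0 => n
  | i + 1 => 2 * chain d n i + (if h : i < k then d ⟨i, h⟩ else -1)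

open Classical in
/-- the number of the primes `p`, `N₁ < p ≤ N₂`, such that every `c_i` (`1 ≤ i ≤ k`) is the product of an element of `S_i` and a
prime -/
noncomputable def count {k : ℕ} (S : Fin k → Finset ℕ) (d : Fin k → ℤ) (N₁ N₂ : ℕ) : ℕ :=
  ((Ioc N₁ N₂).filter (fun p : ℕ => p.Prime ∧ ∀ i : Fin k, ProductOfTwo (S i) (chain d p ((i : ℕ) + 1)))).card

open Classical in
/-- the number of the `n` modulo `q` with `c_0 c_1 ⋯ c_k ≡ 0` -/
noncomputable def ω {k : ℕ} (d : Fin k → ℤ) (q : ℕ) : ℕ :=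
  ((range q).filter (fun n : ℕ => (q : ℤ) ∣ ∏ i ∈ range (k + 1), chain d n i)).card

/-- the singular series -/
noncomputable def singularSeries {k : ℕ} (d : Fin k → ℤ) : ℝ :=
  ∏' q : Nat.Primes, (1 - 1 / ((q : ℕ) : ℝ))⁻¹ ^ (k + 1) * (1 - (ω d q : ℝ) / ((q : ℕ) : ℝ))

/-- the expected number -/
noncomputable def expected {k : ℕ} (S : Fin k → Finset ℕ) (d : Fin k → ℤ) (x N₁ N₂ : ℕ) : ℝ :=
  singularSeries d * (∏ i, ∑ s ∈ S i, 1 / (s : ℝ)) * ((N₂ : ℝ) - N₁) / Real.log x ^ (k + 1)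

/-- no prime divides `c_0 c_1 ⋯ c_k` for all `n` -/
def Admissible {k : ℕ} (d : Fin k → ℤ) : Prop :=
  ∀ q : ℕ, q.Prime → ∃ n : ℕ, ¬ (q : ℤ) ∣ ∏ i ∈ range (k + 1), chain d n i

open Classical in
/-- the admissible `d` of the box `[b_1, b_1 + H) × … × [b_k, b_k + H)` for which the formula fails, up to a relative error of at
most `ε` -/
noncomputable def exceptional {k : ℕ} (ε : ℝ) (S : Fin k → Finset ℕ) (x N₁ N₂ H : ℕ) (b : Fin k → ℤ) : Finset (Fin k → ℤ) :=
  (Fintype.piFinset (fun i => Ico (b i) (b i + H))).filter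
    (fun d => Admissible d ∧ ¬ |(count S d N₁ N₂ : ℝ) - expected S d x N₁ N₂| ≤ ε * expected S d x N₁ N₂)

/-- the slopes -/
def sl (k : ℕ) (i : Fin k) : ℤ := 2 ^ ((i : ℕ) + 1)

/-- the shifts -/
def sh {k : ℕ} (d : Fin k → ℤ) (i : Fin k) : ℤ := chain d 0 ((i : ℕ) + 1)

lemma chain_eq {k : ℕ} (d : Fin k → ℤ) (n : ℤ) (i : ℕ) : chain d n i = 2 ^ i * n + chain d 0 i := by
  induction i with
  | zero => simp [chain]
  | succ i ih =>
    unfold chain
    rw [ih]
    ring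

lemma chain_sl {k : ℕ} (d : Fin k → ℤ) (n : ℤ) (i : Fin k) : chain d n ((i : ℕ) + 1) = sl k i * n + sh d i := by
  rw [chain_eq]
  rfl

lemma prod_chain {k : ℕ} (d : Fin k → ℤ) (n : ℤ) :
    ∏ i ∈ range (k + 1), chain d n i = n * ∏ i : Fin k, (sl k i * n + sh d i) := by
  rw [prod_range_succ', mul_comm]
  have h1 : chain d n 0 = n := rfl
  rw [h1, prod_range]
  congr 1
  apply prod_congr rfl
  intro i _
  exact chain_sl d n i

lemma ω_eq {k : ℕ} (d : Fin k → ℤ) (q : ℕ) : ω d q = Pool.Agent.H561.E2.omg (sl k) (sh d) q := by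
  classical
  unfold ω Pool.Agent.H561.E2.omg
  congr 1
  ext n
  simp only [mem_filter, prod_chain]

lemma ser_eq {k : ℕ} (d : Fin k → ℤ) : singularSeries d = Pool.Agent.H561.E2.singT (sl k) (sh d) := by
  rw [← Pool.Agent.H561.E2.singD_eq]
  unfold singularSeries Pool.Agent.H561.E2.singD
  apply tprod_congr
  intro q
  rw [ω_eq]

lemma omg_lt {s : ℕ} (a b : Fin s → ℤ) (p : ℕ) (hp : p.Prime) (h : ∃ n : ℕ, ¬ (p : ℤ) ∣ (n : ℤ) * ∏ i, (a i * (n : ℤ) + b i)) :
    Pool.Agent.H561.E2.omg a b p < p := by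
  classical
  obtain ⟨n, hn⟩ := h
  have h1 : ¬ (p : ℤ) ∣ ((n % p : ℕ) : ℤ) * ∏ i, (a i * ((n % p : ℕ) : ℤ) + b i) := by
    intro h2
    apply hn
    have h3 : (n : ℤ) ≡ ((n % p : ℕ) : ℤ) [ZMOD p] := by
      rw [Int.natCast_mod]
      exact (Int.mod_modEq _ _).symm
    have h4 : (n : ℤ) * ∏ i, (a i * (n : ℤ) + b i) ≡ ((n % p : ℕ) : ℤ) * ∏ i, (a i * ((n % p : ℕ) : ℤ) + b i) [ZMOD p] := by
      apply Int.ModEq.mul h3
      have h5 : ∀ T : Finset (Fin s), ∏ i ∈ T, (a i * (n : ℤ) + b i) ≡ ∏ i ∈ T, (a i * ((n % p : ℕ) : ℤ) + b i) [ZMOD p] := by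
        intro T
        induction T using Finset.induction_on with
        | empty => simp
        | insert x T hx ih =>
          rw [prod_insert hx, prod_insert hx]
          exact Int.ModEq.mul ((h3.mul_left _).add_right _) ih
      exact h5 univ
    exact (Int.ModEq.dvd_iff h4).2 h2
  have h2 : (range p).filter (fun n : ℕ => (p : ℤ) ∣ (n : ℤ) * ∏ i, (a i * (n : ℤ) + b i)) ⊂ range p := by
    rw [Finset.ssubset_iff_of_subset (filter_subset _ _)]
    refine ⟨n % p, mem_range.2 (Nat.mod_lt _ hp.pos), fun h3 => ?_⟩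
    rw [mem_filter] at h3
    exact h1 h3.2
  have h3 := card_lt_card h2
  rw [card_range] at h3
  unfold Pool.Agent.H561.E2.omg
  convert h3

/-- the shifts of an admissible chain are odd -/
lemma odd_of {k : ℕ} (d : Fin k → ℤ) (hd : Admissible d) (i : Fin k) : ¬ (2 : ℤ) ∣ sh d i := by
  obtain ⟨n, hn⟩ := hd 2 Nat.prime_two
  intro h1
  apply hn
  rw [prod_chain]
  apply Dvd.dvd.mul_left
  refine dvd_trans ?_ (dvd_prod_of_mem _ (mem_univ i))
  push_cast
  apply dvd_add _ h1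
  unfold sl
  rw [pow_succ]
  exact Dvd.dvd.mul_right (Dvd.intro_left _ rfl) _

lemma adm_of {k : ℕ} (d : Fin k → ℤ) (hd : Admissible d) :
    Pool.Agent.H561.E2.NDeg (sl k) (sh d) ∧ Pool.Agent.H561.E2.Adm (sl k) (sh d) := by
  refine ⟨⟨fun i h1 => ?_, fun i j hij h1 => ?_⟩, ?_⟩
  · apply odd_of d hd i
    rw [h1]
    exact dvd_zero _
  · unfold Pool.Agent.H561.E2.DD sl at h1
    have key : ∀ u v : Fin k, (u : ℕ) < v → (2 : ℤ) ^ ((v : ℕ) + 1) * sh d u = 2 ^ ((u : ℕ) + 1) * sh d v → False := by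
      intro u v huv he
      obtain ⟨w, hw⟩ : ∃ w, (v : ℕ) = u + (w + 1) := ⟨v - u - 1, by omega⟩
      apply odd_of d hd v
      have e1 : (2 : ℤ) ^ ((v : ℕ) + 1) = 2 ^ ((u : ℕ) + 1) * 2 ^ (w + 1) := by
        rw [← pow_add]
        congr 1
        omega
      rw [e1, mul_assoc] at he
      have h2 := mul_left_cancel₀ (pow_ne_zero _ (by norm_num : (2 : ℤ) ≠ 0)) he
      rw [← h2, pow_succ]
      exact Dvd.dvd.mul_right (Dvd.intro_left _ rfl) _
    rcases Nat.lt_trichotomy (i : ℕ) j with h2 | h2 | h2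
    · exact key i j h2 (by linarith)
    · exact hij (Fin.ext h2)
    · exact key j i h2 (by linarith)
  · rw [Pool.Agent.H561.E2.adm_iff]
    intro q hq
    apply omg_lt _ _ q hq
    obtain ⟨n, hn⟩ := hd q hq
    rw [prod_chain] at hn
    exact ⟨n, hn⟩

lemma prod_iff (S : Finset ℕ) (hS : ∀ p ∈ S, p.Prime) (m : ℤ) : ProductOfTwo S m ↔ Pool.Agent.H561.E2.PS S m.toNat := by
  constructor
  · rintro ⟨p, hp, q, hq, hm⟩
    refine ⟨p, hp, q, hq, ?_⟩
    rw [hm]
    exact_mod_cast Int.toNat_natCast (p * q)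
  · rintro ⟨p, hp, q, hq, hm⟩
    refine ⟨p, hp, q, hq, ?_⟩
    have h1 : 0 < p * q := Nat.mul_pos (hS p hp).pos hq.pos
    have h2 : ((m.toNat : ℕ) : ℤ) = m := Int.toNat_of_nonneg (by omega)
    rw [← h2, hm]
    push_cast
    rfl

lemma cnt_eq {k : ℕ} (S : Fin k → Finset ℕ) (hS : ∀ i, ∀ p ∈ S i, p.Prime) (d : Fin k → ℤ) (N₁ N₂ : ℕ) :
    count S d N₁ N₂ = Pool.Agent.H561.E2.cntE (sl k) S N₁ N₂ (sh d) := by
  classical
  unfold count Pool.Agent.H561.E2.cntE
  congr 1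
  apply filter_congr
  intro n _
  apply and_congr_right
  intro _
  apply forall_congr'
  intro i
  rw [chain_sl]
  exact prod_iff (S i) (hS i) _

lemma sh_inj {k : ℕ} : Function.Injective (sh : (Fin k → ℤ) → (Fin k → ℤ)) := by
  intro d e h
  have h1 : ∀ i : ℕ, i ≤ k → chain d 0 i = chain e 0 i := by
    intro i hi
    rcases Nat.eq_zero_or_pos i with h2 | h2
    · subst h2; rfl
    · obtain ⟨j, hj⟩ : ∃ j : Fin k, i = (j : ℕ) + 1 := ⟨⟨i - 1, by omega⟩, by simp only; omega⟩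
      rw [hj]
      exact congrFun h j
  funext i
  have h2 := h1 ((i : ℕ) + 1) i.2
  have h3 := h1 i i.2.le
  unfold chain at h2
  rw [dif_pos i.2, dif_pos i.2, h3] at h2
  exact add_left_cancel h2

lemma chain_diff {k : ℕ} (d b : Fin k → ℤ) (H : ℕ) (h : ∀ i, b i ≤ d i ∧ d i ≤ b i + H) (i : ℕ) (hi : i ≤ k) :
    0 ≤ chain d 0 i - chain b 0 i ∧ chain d 0 i - chain b 0 i ≤ (2 ^ i - 1) * H := by
  induction i with
  | zero => simp [chain]
  | succ i ih =>
    obtain ⟨h1, h2⟩ := ih (by omega)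
    have h3 := h ⟨i, by omega⟩
    unfold chain
    rw [dif_pos (by omega), dif_pos (by omega)]
    constructor
    · linarith [h3.1]
    · have h4 : ((2 : ℤ) ^ (i + 1) - 1) * H = 2 * ((2 ^ i - 1) * H) + H := by ring
      rw [h4]
      linarith [h3.2]

/-- **A prime and products of two primes in Cunningham chains with variable steps, for almost all vectors of steps in every box of
side `H ≥ P (log x) ^ G`.** -/
theorem result (k : ℕ) (hk : 0 < k) (ε : ℝ) (hε : 0 < ε) : ∃ θ : ℝ, 0 < θ ∧ ∀ A B : ℕ, ∃ u G : ℕ, ∀ᶠ x : ℕ in atTop,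
    ∀ (P : ℕ) (S : Fin k → Finset ℕ) (N₁ N₂ H : ℕ) (b : Fin k → ℤ), 1 ≤ P → (P : ℝ) ≤ (x : ℝ) ^ θ →
      (∀ i, ∀ s ∈ S i, s.Prime ∧ Real.log x ^ u < s ∧ s ≤ P) → (∀ i, 1 / Real.log x ^ B ≤ ∑ s ∈ S i, 1 / (s : ℝ)) →
      N₂ ≤ x → x / Real.log x ^ B ≤ (N₂ : ℝ) - N₁ → P * Real.log x ^ G ≤ H →
      (∀ i : Fin k, ∀ n ∈ Ioc N₁ N₂, 1 ≤ chain b n ((i : ℕ) + 1) ∧ chain b n ((i : ℕ) + 1) + 2 ^ k * H ≤ x) →
        ((exceptional ε S x N₁ N₂ H b).card : ℝ) ≤ (H : ℝ) ^ k / Real.log x ^ A := by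
  classical
  have hsl0 : ∀ i, sl k i ≠ 0 := fun i => by
    unfold sl
    exact pow_ne_zero _ (by norm_num)
  obtain ⟨θ, hθ0, _, hT⟩ := Pool.Agent.H561.E3.cntPK k hk (sl k) hsl0 (fun U => Pool.Agent.H561.E3.err_bigK hk (sl k) hsl0 U) ε hε
  refine ⟨θ, hθ0, fun A B => ?_⟩
  obtain ⟨a₀, hT⟩ := hT (A + 1) B
  obtain ⟨G, X₀, hT⟩ := hT a₀ le_rfl
  refine ⟨a₀, G, ?_⟩
  have hlogt : Tendsto (fun X : ℕ => Real.log (X : ℝ)) atTop atTop := Real.tendsto_log_atTop.comp tendsto_natCast_atTop_atTop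
  filter_upwards [eventually_ge_atTop (max X₀ 3), hlogt.eventually (eventually_ge_atTop (((2 : ℝ) ^ k) ^ k + 1))] with x hx hlx
  intro P S N₁ N₂ H b hP hPθ hS hSB hN2 hNN hH hb
  have hx3 : 3 ≤ x := (le_max_right _ _).trans hx
  have p2 : (0 : ℝ) < ((2 : ℝ) ^ k) ^ k := by positivity
  have hL : 0 < Real.log x := by linarith
  have hN12 : N₁ < N₂ := by
    have h1 : (0 : ℝ) < x / Real.log x ^ B := by
      have : (0 : ℝ) < x := by exact_mod_cast (by omega : 0 < x)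
      positivity
    have h2 : (N₁ : ℝ) < N₂ := by linarith
    exact_mod_cast h2
  obtain ⟨H', hH'⟩ : ∃ H' : ℕ, H' = 2 ^ k * H := ⟨_, rfl⟩
  have hHH' : H ≤ H' := by rw [hH']; exact Nat.le_mul_of_pos_left _ (by positivity)
  have hHr' : (H : ℝ) ≤ H' := by exact_mod_cast hHH'
  have hHpos : 0 < H := by
    have h1 : (0 : ℝ) < P * Real.log x ^ G := by
      have : (0 : ℝ) < P := by exact_mod_cast hP
      positivity
    have h2 : (0 : ℝ) < H := by linarith
    exact_mod_cast h2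
  have h0 := hT x ((le_max_left _ _).trans hx) P hP hPθ S hS hSB H' (hH.trans hHr') N₁ N₂ (sh b) hN12 hN2 hNN (by
    intro i n hn
    have h1 := hb i n hn
    rw [chain_sl] at h1
    rw [hH']
    push_cast
    exact h1)
  have hinj : (exceptional ε S x N₁ N₂ H b).card ≤
      ((Fintype.piFinset (fun i : Fin k => Ico (sh b i) (sh b i + H'))).filter (fun h =>
        Pool.Agent.H561.E2.NDeg (sl k) h ∧ Pool.Agent.H561.E2.Adm (sl k) h ∧
        ¬ (Multipliable (fun p : ℕ => if p.Prime then Pool.Agent.H561.E2.lf (sl k) h p else 1) ∧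
          |(Pool.Agent.H561.E2.cntE (sl k) S N₁ N₂ h : ℝ) - Pool.Agent.H561.E2.Mn (sl k) S N₁ N₂ h / Real.log x ^ (k + 1)| ≤
          ε * (Pool.Agent.H561.E2.Mn (sl k) S N₁ N₂ h / Real.log x ^ (k + 1))))).card := by
    apply card_le_card_of_injOn sh _ sh_inj.injOn
    intro d hd
    have hd' : d ∈ exceptional ε S x N₁ N₂ H b := hd
    unfold exceptional at hd'
    rw [mem_filter, Fintype.mem_piFinset] at hd'
    obtain ⟨h1, h2, h3⟩ := hd'
    rw [mem_coe, mem_filter, Fintype.mem_piFinset]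
    refine ⟨fun i => ?_, (adm_of d h2).1, (adm_of d h2).2, fun h4 => h3 ?_⟩
    · have h5 := chain_diff d b H (fun j => by
        have := h1 j
        rw [mem_Ico] at this
        exact ⟨this.1, this.2.le⟩) ((i : ℕ) + 1) i.2
      have h6 : ((2 : ℤ) ^ ((i : ℕ) + 1) - 1) * H ≤ (2 ^ k - 1) * H := by
        apply mul_le_mul_of_nonneg_right _ (by positivity)
        have h3 : (2 : ℤ) ^ ((i : ℕ) + 1) ≤ 2 ^ k := pow_le_pow_right₀ (by norm_num) i.2
        linarith
      have h7 : (0 : ℤ) < H := by exact_mod_cast hHpos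
      rw [mem_Ico]
      unfold sh
      rw [hH']
      push_cast
      constructor
      · linarith [h5.1]
      · have h8 : ((2 : ℤ) ^ k - 1) * H = 2 ^ k * H - H := by ring
        linarith [h5.2]
    · have e1 := cnt_eq S (fun i p hp => (hS i p hp).1) d N₁ N₂
      have e2 : expected S d x N₁ N₂ = Pool.Agent.H561.E2.Mn (sl k) S N₁ N₂ (sh d) / Real.log x ^ (k + 1) := by
        unfold expected Pool.Agent.H561.E2.Mn
        rw [ser_eq]
      rw [e1, e2]
      exact h4.2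
  have hcard : ((exceptional ε S x N₁ N₂ H b).card : ℝ) ≤ (H' : ℝ) ^ k / Real.log x ^ (A + 1) :=
    le_trans (by exact_mod_cast hinj) h0
  refine hcard.trans ?_
  have e1 : ((H' : ℕ) : ℝ) ^ k = ((2 : ℝ) ^ k) ^ k * (H : ℝ) ^ k := by
    rw [hH']
    push_cast
    rw [mul_pow]
  rw [e1, div_le_div_iff₀ (by positivity) (by positivity)]
  have hlx' : ((2 : ℝ) ^ k) ^ k ≤ Real.log x := by linarith
  calc ((2 : ℝ) ^ k) ^ k * (H : ℝ) ^ k * Real.log x ^ A ≤ Real.log x * (H : ℝ) ^ k * Real.log x ^ A := by gcongr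
    _ = (H : ℝ) ^ k * Real.log x ^ (A + 1) := by ring

end Pool.Agent.Results.MP_9f2731_nt.ChainsInLogBoxes
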