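import Mathlib
import Pool.Agent.H522.ExactOrbits

/-!
# Supersaturation of the patterns of primes in Cunningham orbits of the second kind

The orbit of `n + 1` under `x ↦ 2 x - 1` is `n + 1, 2 n + 1, 4 n + 1, …`; a Cunningham chain of the second kind is a run
of primes in such an orbit. Which sets of times are the sets of ALL the prime times of orbits? Let `T` be any finite
set of times with `log |T| ≥ 4 m + 0.58`, `m ≥ 2`. We show

* (1) at least `(|T| / (300000 m ^ 2)) ^ m` sets `P ⊆ T` with at least `m` elements are exact patterns: for many `n` the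
  term at time `t` is prime exactly for `t ∈ P` (for all `t ≤ W`, for every `W`);
* (2) the proportion of at least `(10 ^ 6 m) ^ (- m)` of all the `m`-element sets `H ⊆ T` consists of sets which are
  exactly the times of the first `m` primes of the orbits of many `n`;
* (3) consequently, for every `c < 1 / 4`, every set of `L ≥ L₀ (c)` times contains at least `exp (c log ^ 2 L)` exact
  patterns (the number `1 / 16` in the place of `1 / 4` was known);
* (4) for primes: if `log (M + 1) ≥ 4 m + 0.58`, then there are at least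
  `((M + 1) / (300000 m ^ 2)) ^ m / (M + 1)` sets `D ⊆ {1, …, M}` with at least `m - 1` elements such that for many primes
  `p` the terms of the orbit of `p` at the times `1 ≤ t ≤ W` are prime exactly for `t ∈ D`, for every `W`.

Method: in the measure of Maynard and Tao for the forms `2 ^ t n + 1`, `t ∈ T`, the probability that the forms in a
nonempty set `U` are all prime is at most `(250 |U| m / |T|) ^ |U|`, while with probability at least
`1 / (300000 m ^ 2)` at least `m` of them are prime; the terms at all other times are made composite by congruences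
(`Pool.Agent.H522`).
-/

set_option autoImplicit false

open Finset Filter

namespace Pool.Agent.Results.MP_9f2731_nt.ManyExactPatterns

/-- `P n` holds for many `n`: for every `η > 0` there are arbitrarily large `x` such that it holds for at least
`x ^ (1 - η)` of the natural numbers `n ≤ x` -/
def Many (P : ℕ → Prop) : Prop := ∀ η : ℝ, 0 < η → ∃ᶠ x : ℝ in atTop,
  x ^ (1 - η) ≤ (Set.ncard {n : ℕ | (n : ℝ) ≤ x ∧ P n} : ℝ)

/-- `P` is the exact set of the prime times, up to every time `W`, of the orbits of many `n + 1` -/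
def ExactPattern (P : Finset ℕ) : Prop :=
  ∀ W : ℕ, Many fun n => ∀ t ≤ W, ((2 ^ t * n + 1).Prime ↔ t ∈ P)

/-- `H` is exactly the set of the times of the first `|H|` primes of the orbits of many `n + 1` -/
def FirstPrimeTimes (H : Finset ℕ) : Prop :=
  Many fun n => ∀ t ≤ H.sup id, ((2 ^ t * n + 1).Prime ↔ t ∈ H)

/-- `D` is the exact set of the prime times `t ≥ 1`, up to every time `W`, of the orbits of many primes `p` -/
def ExactPrimePattern (D : Finset ℕ) : Prop :=
  ∀ W : ℕ, Many fun p => p.Prime ∧ ∀ t, 1 ≤ t → t ≤ W → ((2 ^ t * (p - 1) + 1).Prime ↔ t ∈ D)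

open Classical in
theorem exact_prime {P : Finset ℕ} (h : ExactPattern P) (hP : P.Nonempty) :
    ExactPrimePattern ((P.erase (P.min' hP)).image (fun t => t - P.min' hP)) := by
  intro W
  refine Pool.Agent.H522.OftenP.map (2 ^ P.min' hP) 1 (by positivity) ?_ (h (W + P.min' hP))
  intro n hn
  have hmin : ∀ t ∈ P, P.min' hP ≤ t := fun t ht => Finset.min'_le P t ht
  refine ⟨(hn _ (by omega)).2 (Finset.min'_mem P hP), fun t ht1 ht2 => ?_⟩
  have h1 : 2 ^ t * (2 ^ P.min' hP * n + 1 - 1) + 1 = 2 ^ (t + P.min' hP) * n + 1 := by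
    rw [Nat.add_sub_cancel, ← mul_assoc, ← pow_add]
  rw [h1, hn (t + P.min' hP) (by omega), Finset.mem_image]
  constructor
  · intro h2
    exact ⟨t + P.min' hP, Finset.mem_erase.2 ⟨by omega, h2⟩, by omega⟩
  · rintro ⟨s, hs, hst⟩
    rw [Finset.mem_erase] at hs
    have := hmin s hs.2
    have h2 : t + P.min' hP = s := by omega
    rw [h2]
    exact hs.2

/-- **Supersaturation of the patterns of primes in Cunningham orbits of the second kind.** -/
theorem result :
    (∀ m : ℕ, 2 ≤ m → ∀ T : Finset ℕ, 4 * (m : ℝ) + 29 / 50 ≤ Real.log T.card →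
      -- (1) many exact patterns
      ((T.card : ℝ) / (300000 * (m : ℝ) ^ 2)) ^ m ≤
        (Set.ncard {P : Finset ℕ | P ⊆ T ∧ m ≤ P.card ∧ ExactPattern P} : ℝ) ∧
      -- (2) the proportion of the sets of `m` times
      (T.card.choose m : ℝ) ≤
        (1000000 * (m : ℝ)) ^ m * (Set.ncard {H : Finset ℕ | H ⊆ T ∧ H.card = m ∧ FirstPrimeTimes H} : ℝ)) ∧
    -- (3) the number of the exact patterns
    (∀ c : ℝ, c < 1 / 4 → ∃ L₀ : ℕ, ∀ T : Finset ℕ, L₀ ≤ T.card →
      Real.exp (c * Real.log T.card ^ 2) ≤ (Set.ncard {P : Finset ℕ | P ⊆ T ∧ ExactPattern P} : ℝ)) ∧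
    -- (4) orbits of primes
    (∀ m : ℕ, 2 ≤ m → ∀ M : ℕ, 4 * (m : ℝ) + 29 / 50 ≤ Real.log (M + 1) →
      (((M : ℝ) + 1) / (300000 * (m : ℝ) ^ 2)) ^ m / (M + 1) ≤
        (Set.ncard {D : Finset ℕ | D ⊆ Icc 1 M ∧ m - 1 ≤ D.card ∧ ExactPrimePattern D} : ℝ)) := by
  classical
  have hsm := Pool.Agent.H522.hasSM_E (fun t : ℕ => 2 ^ t) (fun _ => 1)
  have hex : ∀ P : Finset ℕ, Pool.Agent.H522.ExactL (fun t : ℕ => 2 ^ t) (fun _ => 1) P → ExactPattern P := by
    intro P hP W η hη
    refine (hP (Finset.range (W + 1)) η hη).mono fun x hx => hx.trans ?_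
    have h1 : {n : ℕ | (n : ℝ) ≤ x ∧ ∀ i ∈ Finset.range (W + 1), ((2 ^ i * n + 1).Prime ↔ i ∈ P)} ⊆
        {n : ℕ | (n : ℝ) ≤ x ∧ ∀ t ≤ W, ((2 ^ t * n + 1).Prime ↔ t ∈ P)} :=
      fun n hn => ⟨hn.1, fun t ht => hn.2 t (Finset.mem_range.2 (by omega))⟩
    exact_mod_cast Set.ncard_le_ncard h1 (Pool.Agent.H522.finite_le _ x)
  have h1 : ∀ m : ℕ, 2 ≤ m → ∀ T : Finset ℕ, 4 * (m : ℝ) + 29 / 50 ≤ Real.log T.card →
      ((T.card : ℝ) / (300000 * (m : ℝ) ^ 2)) ^ m ≤
        (Set.ncard {P : Finset ℕ | P ⊆ T ∧ m ≤ P.card ∧ ExactPattern P} : ℝ) := by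
    intro m hm T hT
    have h := Pool.Agent.H522.super_isoG hsm m hm T (Pool.Agent.H522.okE_second T) hT
    refine h.trans ?_
    rw [← Set.ncard_coe_finset, Nat.cast_le]
    refine Set.ncard_le_ncard ?_ ((T.powerset.finite_toSet).subset fun P hP => by simpa using hP.1)
    intro P hP
    rw [Finset.mem_coe, Finset.mem_filter, Finset.mem_powerset] at hP
    exact ⟨hP.1, hP.2.1, hex P hP.2.2⟩
  refine ⟨fun m hm T hT => ⟨h1 m hm T hT, ?_⟩, ?_, ?_⟩
  · have h := Pool.Agent.H522.super_initG hsm m hm T (Pool.Agent.H522.okE_second T) hT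
    refine (Pool.Agent.H522.super_propG m hm T _ h).trans ?_
    apply mul_le_mul_of_nonneg_left _ (by positivity)
    rw [← Set.ncard_coe_finset, Nat.cast_le]
    refine Set.ncard_le_ncard ?_ ((T.powerset.finite_toSet).subset fun P hP => by simpa using hP.1)
    intro H hH
    rw [Finset.mem_coe, Finset.mem_filter, Finset.mem_powersetCard] at hH
    obtain ⟨⟨h2, h3⟩, B, hB, hHB, hseg⟩ := hH
    refine ⟨h2, h3, Pool.Agent.H522.OftenP.mono ?_ (hex B hB (H.sup id))⟩
    intro n hn t ht
    rw [hn t ht]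
    refine ⟨fun htB => ?_, fun htH => hHB htH⟩
    have hne : H.Nonempty := by rw [← Finset.card_pos]; omega
    obtain ⟨s, hs, hse⟩ := Finset.exists_mem_eq_sup H hne id
    refine hseg t htB s hs ?_
    rw [hse] at ht
    exact ht
  · intro c hc
    obtain ⟨L₀, hL₀⟩ := Pool.Agent.H522.log_sq c hc
    refine ⟨L₀, fun T hT => ?_⟩
    obtain ⟨m, hm, h2, h3⟩ := hL₀ T.card hT
    refine h3.trans ((h1 m hm T h2).trans ?_)
    rw [Nat.cast_le]
    exact Set.ncard_le_ncard (fun P hP => ⟨hP.1, hP.2.2⟩)
      ((T.powerset.finite_toSet).subset fun P hP => by simpa using hP.1)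
  · intro m hm M hM
    have hMc : (((Finset.range (M + 1)).card : ℕ) : ℝ) = (M : ℝ) + 1 := by
      rw [Finset.card_range]; push_cast; ring
    have h2 := h1 m hm (Finset.range (M + 1)) (by rw [hMc]; exact hM)
    rw [hMc] at h2
    have hM0 : (0 : ℝ) < (M : ℝ) + 1 := by positivity
    rw [div_le_iff₀ hM0]
    refine h2.trans ?_
    have hfin : {D : Finset ℕ | D ⊆ Icc 1 M ∧ m - 1 ≤ D.card ∧ ExactPrimePattern D}.Finite :=
      ((Icc 1 M).powerset.finite_toSet).subset fun P hP => Finset.mem_coe.2 (Finset.mem_powerset.2 hP.1)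
    have h3 : Set.ncard {P : Finset ℕ | P ⊆ Finset.range (M + 1) ∧ m ≤ P.card ∧ ExactPattern P} ≤
        Set.ncard ({D : Finset ℕ | D ⊆ Icc 1 M ∧ m - 1 ≤ D.card ∧ ExactPrimePattern D} ×ˢ
          (Finset.range (M + 1) : Set ℕ)) := by
      refine Set.ncard_le_ncard_of_injOn (fun P => ((P.erase (sInf (P : Set ℕ))).image (fun t => t - sInf (P : Set ℕ)),
        sInf (P : Set ℕ))) ?_ ?_ (hfin.prod (Finset.finite_toSet _))
      · rintro P ⟨hP1, hP2, hP3⟩
        have hne : P.Nonempty := by rw [← Finset.card_pos]; omega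
        have hmin : sInf (P : Set ℕ) = P.min' hne := by
          apply le_antisymm
          · exact Nat.sInf_le (Finset.min'_mem P hne)
          · exact Finset.min'_le P _ (Nat.sInf_mem (s := (P : Set ℕ)) hne)
        have hle : ∀ t ∈ P, P.min' hne ≤ t := fun t ht => Finset.min'_le P t ht
        rw [hmin]
        refine ⟨⟨?_, ?_, exact_prime hP3 hne⟩, hP1 (Finset.min'_mem P hne)⟩
        · intro s hs
          rw [Finset.mem_image] at hs
          obtain ⟨t, ht, rfl⟩ := hs
          rw [Finset.mem_erase] at ht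
          have e1 := hle t ht.2
          have e2 := Finset.mem_range.1 (hP1 ht.2)
          rw [Finset.mem_Icc]
          omega
        · rw [Finset.card_image_of_injOn, Finset.card_erase_of_mem (Finset.min'_mem P hne)]
          · omega
          · intro a ha b hb hab
            have e1 := hle a (Finset.mem_of_mem_erase ha)
            have e2 := hle b (Finset.mem_of_mem_erase hb)
            simp only at hab
            omega
      · rintro P ⟨hP1, hP2, hP3⟩ P' ⟨hP1', hP2', hP3'⟩ hPP
        rw [Prod.mk.injEq] at hPP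
        obtain ⟨e1, e2⟩ := hPP
        have hne : P.Nonempty := by rw [← Finset.card_pos]; omega
        have hne' : P'.Nonempty := by rw [← Finset.card_pos]; omega
        have hrec : ∀ Q : Finset ℕ, Q.Nonempty → ∀ t, t ∈ Q ↔ (t = sInf (Q : Set ℕ) ∨ (sInf (Q : Set ℕ) ≤ t ∧
            t - sInf (Q : Set ℕ) ∈ (Q.erase (sInf (Q : Set ℕ))).image (fun t => t - sInf (Q : Set ℕ)))) := by
          intro Q hQ t
          have hmem : sInf (Q : Set ℕ) ∈ Q := Nat.sInf_mem (s := (Q : Set ℕ)) hQ
          constructor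
          · intro ht
            have h4 : sInf (Q : Set ℕ) ≤ t := Nat.sInf_le ht
            by_cases h5 : t = sInf (Q : Set ℕ)
            · exact Or.inl h5
            · exact Or.inr ⟨h4, Finset.mem_image.2 ⟨t, Finset.mem_erase.2 ⟨h5, ht⟩, rfl⟩⟩
          · rintro (h4 | ⟨h4, h5⟩)
            · rw [h4]; exact hmem
            · rw [Finset.mem_image] at h5
              obtain ⟨s, hs, hst⟩ := h5
              rw [Finset.mem_erase] at hs
              have h6 : sInf (Q : Set ℕ) ≤ s := Nat.sInf_le hs.2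
              have h7 : s = t := by omega
              rw [← h7]
              exact hs.2
        ext t
        rw [hrec P hne t, hrec P' hne' t, e1, e2]
    rw [Set.ncard_prod, Set.ncard_coe_finset, Finset.card_range] at h3
    have h4 : ((Set.ncard {P : Finset ℕ | P ⊆ Finset.range (M + 1) ∧ m ≤ P.card ∧ ExactPattern P} : ℕ) : ℝ) ≤
      ((Set.ncard {D : Finset ℕ | D ⊆ Icc 1 M ∧ m - 1 ≤ D.card ∧ ExactPrimePattern D} * (M + 1) : ℕ) : ℝ) := by
      exact_mod_cast h3
    refine h4.trans (le_of_eq ?_)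
    push_cast
    ring

end Pool.Agent.Results.MP_9f2731_nt.ManyExactPatterns
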